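import Pool.Agent.TH387.SH.Tr
import Pool.Agent.TH603.EL.Fin
import Pool.Agent.TH603.Sur.Uni

/-! Exact postulation of `n ≥ 10` general fat points of the plane outside a window of degrees of
length `√n - 3`. -/

namespace Pool.Agent.TH387.SH

open Finset Pool.Agent.TH176.Nag Pool.Agent.TH603.Sur Pool.Agent.TH181.NagM Pool.Agent.H932R3

/-- the final criterion with a slope at most the number of points -/
theorem SP_final' {ι : Type} [Fintype ι] (w : ι → ℕ) (b : ℕ) (hb : ∀ i, w i ≤ b + 1) {n c : ℝ}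
    (hn : 0 < n) (hcard : n ≤ Fintype.card ι) (hc : n + ((∑ i, max (w i) b : ℕ) : ℝ) ≤ c * √n) :
    SP w c 0 n := by
  refine ⟨by simpa using hn, fun E hE α => ?_⟩
  rw [zero_add]
  apply Sur_final
  rintro k ⟨i, hi⟩
  have hs : 0 < √n := Real.sqrt_pos.2 hn
  have h1 : c * √n < E * √n := mul_lt_mul_of_pos_right hE hs
  have hkb : k ≤ b := by have := hb i; omega
  have h2 : ∑ i, (w i - k) + Fintype.card ι * k ≤ ∑ i, max (w i) b := by
    have : Fintype.card ι * k = ∑ _i : ι, k := by simp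
    rw [this, ← sum_add_distrib]
    refine sum_le_sum fun i _ => ?_
    rcases le_total (w i) k with h | h
    · rw [Nat.sub_eq_zero_of_le h, zero_add]
      exact hkb.trans (le_max_right _ _)
    · rw [Nat.sub_add_cancel h]
      exact le_max_left _ _
  have h3 : ((∑ i, (w i - k) : ℕ) : ℝ) + n * k ≤ ((∑ i, max (w i) b : ℕ) : ℝ) := by
    have h4 : ((∑ i, (w i - k) : ℕ) : ℝ) + (Fintype.card ι : ℝ) * k ≤ ((∑ i, max (w i) b : ℕ) : ℝ) := by
      exact_mod_cast h2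
    have h5 : n * k ≤ (Fintype.card ι : ℝ) * k := mul_le_mul_of_nonneg_right hcard (Nat.cast_nonneg _)
    linarith
  linarith

/-- independence on the triangles of the key lemma -/
theorem SP_shape {ι : Type} [Fintype ι] {w : ι → ℕ} {c s : ℝ} (hc0 : 0 ≤ c) (hs : 3 ≤ s)
    (h : SP w c 0 (s ^ 2)) (v : ℤ) : SP w c (3 * s - v) (9 - 3 * s + v) := by
  have hcl := SP_closed (w := w) hc0
  have hs0 : 0 < s := by linarith
  -- the shape `(3 s, s ^ 2 - 3 s)`
  have h1 : SP w c (3 * s) (s ^ 2 - 3 * s) := by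
    have e : 3 * s + (s ^ 2 - 3 * s) = s ^ 2 := by ring
    refine (Mv.toRT (μ := 3 * s) (ν := s ^ 2 - 3 * s) (by rw [e]; positivity)).closed hcl ?_
    rw [e]
    exact h
  have h2 : SP w c (3 * s - 9) (18 - 3 * s) := by
    refine hcl.stepA 1 9 isCoprime_one_left (by norm_num) (by push_cast; linarith)
      (by push_cast; linarith) (by linarith) ?_
    have e1 : ((1 : ℤ) : ℝ) * (((1 : ℤ) : ℝ) * (3 * s - 9) + ((9 : ℤ) : ℝ)) = 3 * s := by
      push_cast; ring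
    have e2 : (((9 : ℤ) : ℝ) - ((1 : ℤ) : ℝ) * (18 - 3 * s)) * (((1 : ℤ) : ℝ) * (3 * s - 9) +
        ((9 : ℤ) : ℝ)) / (3 * s - 9 + (18 - 3 * s)) = s ^ 2 - 3 * s := by
      push_cast
      have : (3 * s - 9 + (18 - 3 * s) : ℝ) = 9 := by ring
      rw [this]; ring
    rw [e1, e2]
    exact h1
  refine hcl.shear (v - 9) ?_
  have e3 : 3 * s - (v : ℝ) + ((v - 9 : ℤ) : ℝ) = 3 * s - 9 := by push_cast; ring
  have e4 : 9 - 3 * s + (v : ℝ) - ((v - 9 : ℤ) : ℝ) = 18 - 3 * s := by push_cast; ring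
  rw [e3, e4]
  exact h2

/-- independence on the forms of degree `d` -/
theorem Sur_plane {ι : Type} [Fintype ι] (hn : 10 ≤ Fintype.card ι) {w : ι → ℕ} {b d : ℕ}
    (hb : ∀ i, w i ≤ b + 1)
    (h : (Fintype.card ι : ℝ) + ((∑ i, max (w i) b : ℕ) : ℝ) < √(Fintype.card ι) * (d + 3)) :
    Sur w (TZ d) := by
  obtain ⟨N, hN⟩ : ∃ N : ℝ, N = (Fintype.card ι : ℝ) := ⟨_, rfl⟩
  have hN10 : 10 ≤ N := by rw [hN]; exact_mod_cast hn
  rw [← hN] at h
  obtain ⟨r, hr⟩ : ∃ r : ℝ, r = √N := ⟨_, rfl⟩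
  have hr2 : r ^ 2 = N := by rw [hr]; exact Real.sq_sqrt (by linarith)
  have hr3 : 3 < r := by
    rw [hr]
    rw [Real.lt_sqrt (by norm_num)]
    linarith
  obtain ⟨M, hM⟩ : ∃ M : ℝ, M = ((∑ i, max (w i) b : ℕ) : ℝ) := ⟨_, rfl⟩
  have hM0 : 0 ≤ M := by rw [hM]; positivity
  rw [← hM, ← hr] at h
  -- the offset
  obtain ⟨v, hv⟩ : ∃ v : ℤ, v = ⌈3 * r⌉ - 4 := ⟨_, rfl⟩
  have hv1 : 3 * r - 4 ≤ v := by
    rw [hv]; push_cast; have := Int.le_ceil (3 * r); linarith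
  have hv2 : (v : ℝ) < 3 * r - 3 := by
    rw [hv]; push_cast; have := Int.ceil_lt_add_one (3 * r); linarith
  -- choose an irrational number slightly smaller than `r`
  obtain ⟨lo, hlo⟩ : ∃ lo : ℝ, lo = max (max 3 (r - 1 / 6)) (max (1 + (v : ℝ) / 3) ((N + M) / (d + 3))) :=
    ⟨_, rfl⟩
  have hd3 : (0 : ℝ) < d + 3 := by positivity
  have hlor : lo < r := by
    rw [hlo]
    refine max_lt (max_lt hr3 (by linarith)) (max_lt (by linarith) ?_)
    rw [div_lt_iff₀ hd3]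
    exact h
  obtain ⟨s, hs, hs1, hs2⟩ := exists_irrational_btwn hlor
  have a1 : 3 < s := lt_of_le_of_lt (by rw [hlo]; exact (le_max_left _ _).trans (le_max_left _ _)) hs1
  have a2 : r - 1 / 6 < s :=
    lt_of_le_of_lt (by rw [hlo]; exact (le_max_right _ _).trans (le_max_left _ _)) hs1
  have a3 : 1 + (v : ℝ) / 3 < s :=
    lt_of_le_of_lt (by rw [hlo]; exact (le_max_left _ _).trans (le_max_right _ _)) hs1
  have a4 : (N + M) / (d + 3) < s :=
    lt_of_le_of_lt (by rw [hlo]; exact (le_max_right _ _).trans (le_max_right _ _)) hs1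
  rw [div_lt_iff₀ hd3] at a4
  have hs0 : 0 < s := by linarith
  have hsq : s ^ 2 < N := by rw [← hr2]; nlinarith
  have hsr : √(s ^ 2) = s := Real.sqrt_sq hs0.le
  obtain ⟨c, hc⟩ : ∃ c : ℝ, c = (s ^ 2 + M) / s := ⟨_, rfl⟩
  have hc0 : 0 ≤ c := by rw [hc]; positivity
  have hcd : c < d + 3 := by
    rw [hc, div_lt_iff₀ hs0]
    linarith
  have h1 : SP w c 0 (s ^ 2) := by
    refine SP_final' w b hb (by positivity) (by rw [← hN]; exact hsq.le) ?_
    rw [hsr, hc, div_mul_cancel₀ _ hs0.ne', ← hM]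
  have h2 := SP_shape hc0 a1.le h1 v
  -- the slope of the tube
  obtain ⟨τ, hτ⟩ : ∃ τ : ℝ, τ = s - 1 - (v : ℝ) / 3 := ⟨_, rfl⟩
  have hτ0 : 0 < τ := by rw [hτ]; linarith
  have hτ1 : τ < 1 := by rw [hτ]; linarith
  have hirr : Irrational τ := by
    have e : τ = s - (((1 + v / 3 : ℚ)) : ℝ) := by rw [hτ]; push_cast; ring
    rw [e]
    exact hs.sub_ratCast _
  have h3 := h2.2 (d + 3) hcd (-(((d : ℝ) + 3) * (1 + τ)))
  have e9 : 3 * s - (v : ℝ) + (9 - 3 * s + v) = 3 ^ 2 := by ring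
  rw [e9, Real.sqrt_sq (by norm_num)] at h3
  refine Sur_key hτ0 hτ1 hirr ?_
  refine h3.shift 0 1 ?_
  rintro ⟨a, y⟩ ⟨h4, h5, h6⟩
  simp only at h4 h5 h6
  refine ⟨by simp only; omega, ?_, ?_⟩
  · simp only
    push_cast
    have : 3 * s - (v : ℝ) = 3 * (1 + τ) := by rw [hτ]; ring
    rw [this] at h5
    linarith
  · simp only
    push_cast
    have : 9 - 3 * s + (v : ℝ) = 3 * (2 - τ) := by rw [hτ]; ring
    rw [this] at h6
    linarith

/-- **Exact postulation of `n ≥ 10` general fat points**, all multiplicities. -/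
theorem expDim_all {n : ℕ} (hn : 10 ≤ n) (w : Fin n → ℕ) :
    ∃ F : MvPolynomial (Fin n × Fin 2) ℚ, F ≠ 0 ∧
      ∀ {L : Type} [Field L] [CharZero L] (P : Fin n → Fin 2 → L),
        MvPolynomial.aeval (fun ij : Fin n × Fin 2 => P ij.1 ij.2) F ≠ 0 →
        ∀ d : ℕ, (√(n : ℝ) * d < ∑ i, (w i : ℝ) ∨
          ∃ b : ℕ, (∀ i, w i ≤ b + 1) ∧
            (n : ℝ) + ((∑ i, max (w i) b : ℕ) : ℝ) < √(n : ℝ) * (d + 3)) →
          ExpDim L w P d := by
  have hn' : (1 : ℝ) ≤ n := by exact_mod_cast (by omega : 1 ≤ n)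
  have hs : 1 ≤ √(n : ℝ) := Real.one_le_sqrt.2 hn'
  refine expDim_two (N := ∑ i, w i) (fun d hd => ?_) (fun d hd => ?_) (fun d hd => ?_)
  · have h1 : (d : ℝ) ≤ √(n : ℝ) * d := le_mul_of_one_le_left (Nat.cast_nonneg _) hs
    have h2 : (d : ℝ) < ((∑ i, w i : ℕ) : ℝ) := by push_cast; linarith
    exact (by exact_mod_cast h2.le)
  · refine Pool.Agent.TH603.EL.Emp_plane (by rw [Fintype.card_fin]; omega) ?_
    rw [Fintype.card_fin]
    exact hd
  · obtain ⟨b, hb, hlt⟩ := hd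
    refine Sur_plane (by rw [Fintype.card_fin]; exact hn) hb ?_
    rw [Fintype.card_fin]
    exact hlt

/-- **Exact postulation of `n ≥ 10` general fat points of one multiplicity.** -/
theorem expDim_one {n : ℕ} (hn : 10 ≤ n) (m : ℕ) :
    ∃ F : MvPolynomial (Fin n × Fin 2) ℚ, F ≠ 0 ∧
      ∀ {L : Type} [Field L] [CharZero L] (P : Fin n → Fin 2 → L),
        MvPolynomial.aeval (fun ij : Fin n × Fin 2 => P ij.1 ij.2) F ≠ 0 →
        ∀ d : ℕ, ((d : ℝ) < √(n : ℝ) * m ∨ √(n : ℝ) * (m + 1) < (d : ℝ) + 3) →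
          ExpDim L (fun _ => m) P d := by
  obtain ⟨F, hF, hF'⟩ := expDim_all hn (fun _ => m)
  exact ⟨F, hF, fun {L} _ _ P hP d hd => hF' P hP d (uni_cond (by omega) hd)⟩

end Pool.Agent.TH387.SH
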