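import Pool.Agent.TH603.EL.Key
import Pool.Agent.TH603.Sur.Forms

/-! Counting the lattice points of the triangles `T_d(τ)`, and the key lemma for independence. -/

namespace Pool.Agent.TH387.SH

open Finset Pool.Agent.TH176.Nag Pool.Agent.TH603.Sur

/-- the integers of the open interval of row `j` -/
noncomputable def row (d : ℕ) (τ : ℝ) (j : ℕ) : Finset ℤ :=
  Finset.Icc (⌊-(((d : ℝ) - 3 * j) * (1 + τ))⌋ + 1) (⌈((d : ℝ) - 3 * j) * (2 - τ)⌉ - 1)

theorem mem_row {d : ℕ} {τ : ℝ} {j : ℕ} {i : ℤ} :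
    i ∈ row d τ j ↔ -(((d : ℝ) - 3 * j) * (1 + τ)) < i ∧ (i : ℝ) < ((d : ℝ) - 3 * j) * (2 - τ) := by
  unfold row
  rw [Finset.mem_Icc, Int.add_one_le_iff, Int.floor_lt, Int.le_sub_one_iff, Int.lt_ceil]

theorem card_row {d : ℕ} {τ : ℝ} {j : ℕ} (hj : 3 * j ≤ d) : (row d τ j).card ≤ 3 * (d - 3 * j) := by
  unfold row
  rw [Int.card_Icc]
  have e : ((d : ℝ) - 3 * j) * (2 - τ) =
      -(((d : ℝ) - 3 * j) * (1 + τ)) + ((3 * ((d : ℤ) - 3 * j) : ℤ) : ℝ) := by
    push_cast; ring
  rw [e, Int.ceil_add_intCast]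
  have h1 := Int.ceil_le_floor_add_one (-(((d : ℝ) - 3 * j) * (1 + τ)))
  omega

/-- the lattice points of the open rows and the apex -/
noncomputable def TD (d : ℕ) (τ : ℝ) : Finset (ℤ × ℤ) :=
  ((range (d / 3 + 1)).biUnion fun j => (row d τ j).image fun i => (i, (j : ℤ))) ∪
    (if 3 ∣ d then {((0 : ℤ), ((d / 3 : ℕ) : ℤ))} else ∅)

theorem sum_rows (q r : ℕ) (_hr : r < 3) :
    ∑ j ∈ range (q + 1), 3 * ((3 * q + r) - 3 * j) + (if r = 0 then 1 else 0) ≤
      (3 * q + r + 2).choose 2 := by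
  have h1 : ∑ j ∈ range (q + 1), 3 * ((3 * q + r) - 3 * j) =
      ∑ j ∈ range (q + 1), (9 * j + 3 * r) := by
    rw [← Finset.sum_range_reflect]
    refine sum_congr rfl fun j hj => ?_
    rw [mem_range] at hj
    omega
  have h2 : ∀ q : ℕ, 2 * ∑ j ∈ range (q + 1), (9 * j + 3 * r) = 9 * q * (q + 1) + 6 * r * (q + 1) := by
    intro q
    induction q with
    | zero => simp; ring
    | succ q ih => rw [sum_range_succ, mul_add, ih]; ring
  have h3 : 2 * (3 * q + r + 2).choose 2 = (3 * q + r + 2) * (3 * q + r + 1) := by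
    rw [Nat.choose_two_right]
    have : (3 * q + r + 2) * (3 * q + r + 2 - 1) = (3 * q + r + 2) * (3 * q + r + 1) := by
      congr 1
    rw [this]
    have h4 : Even ((3 * q + r + 2) * (3 * q + r + 1)) := by
      have := Nat.even_mul_succ_self (3 * q + r + 1)
      rw [mul_comm]
      exact this
    exact Nat.mul_div_cancel' h4.two_dvd
  have h5 := h2 q
  rw [h1]
  have h6 : 2 * (∑ j ∈ range (q + 1), (9 * j + 3 * r) + (if r = 0 then 1 else 0)) ≤
      2 * (3 * q + r + 2).choose 2 := by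
    rw [mul_add, h5, h3]
    interval_cases r <;> simp <;> nlinarith
  omega

theorem card_TD (d : ℕ) (τ : ℝ) : (TD d τ).card ≤ (d + 2).choose 2 := by
  classical
  unfold TD
  refine (card_union_le _ _).trans ?_
  have h1 : ((range (d / 3 + 1)).biUnion fun j => (row d τ j).image fun i => (i, (j : ℤ))).card ≤
      ∑ j ∈ range (d / 3 + 1), 3 * (d - 3 * j) := by
    refine card_biUnion_le.trans (sum_le_sum fun j hj => ?_)
    rw [mem_range] at hj
    exact card_image_le.trans (card_row (by omega))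
  have h2 : (if 3 ∣ d then ({((0 : ℤ), ((d / 3 : ℕ) : ℤ))} : Finset (ℤ × ℤ)) else ∅).card ≤
      if d % 3 = 0 then 1 else 0 := by
    split_ifs with h3 h4 h4
    · simp
    · omega
    · omega
    · simp
  have h3 := sum_rows (d / 3) (d % 3) (Nat.mod_lt _ (by norm_num))
  have h4 : 3 * (d / 3) + d % 3 = d := Nat.div_add_mod d 3
  rw [h4] at h3
  omega

/-- the closed triangle -/
theorem Reg_subset_TD {d : ℕ} {τ : ℝ} (hirr : Irrational τ) :
    Reg (-((d : ℝ) * (1 + τ))) (d * (2 - τ)) (3 * (1 + τ)) (3 * (2 - τ)) ⊆ ↑(TD d τ) := by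
  classical
  rintro ⟨i, j⟩ ⟨h2, h3, h4⟩
  simp only at h2 h3 h4
  obtain ⟨j, rfl⟩ := Int.eq_ofNat_of_zero_le h2
  simp only [Int.cast_natCast] at h3 h4
  have h5 : -(((d : ℝ) - 3 * j) * (1 + τ)) ≤ i := by linarith
  have h6 : (i : ℝ) ≤ ((d : ℝ) - 3 * j) * (2 - τ) := by linarith
  have h7 : (3 * j : ℝ) ≤ d := by
    by_contra hc
    push Not at hc
    nlinarith
  have h7' : 3 * j ≤ d := by exact_mod_cast h7
  rw [mem_coe]
  unfold TD
  rw [mem_union]
  rcases h7'.lt_or_eq with h8 | h8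
  · left
    rw [mem_biUnion]
    refine ⟨j, by rw [mem_range]; omega, ?_⟩
    rw [mem_image]
    refine ⟨i, ?_, rfl⟩
    rw [mem_row]
    have hL : (d : ℝ) - 3 * j = (((d : ℤ) - 3 * j : ℤ) : ℝ) := by push_cast; ring
    have hL0 : ((d : ℤ) - 3 * j : ℤ) ≠ 0 := by omega
    constructor
    · rcases h5.lt_or_eq with h9 | h9
      · exact h9
      · exfalso
        apply hirr.intCast_add (1 : ℤ) |>.intCast_mul hL0 |>.neg
        refine ⟨(i : ℚ), ?_⟩
        rw [Rat.cast_intCast, ← h9, hL]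
        push_cast
        ring
    · rcases h6.lt_or_eq with h9 | h9
      · exact h9
      · exfalso
        apply hirr.intCast_sub (2 : ℤ) |>.intCast_mul hL0
        refine ⟨(i : ℚ), ?_⟩
        rw [Rat.cast_intCast, h9, hL]
        push_cast
        ring
  · right
    have hd3 : 3 ∣ d := ⟨j, h8.symm⟩
    rw [if_pos hd3, mem_singleton]
    have h9 : (d : ℝ) - 3 * j = 0 := by rw [← h8]; push_cast; ring
    rw [h9] at h5 h6
    have h10 : (i : ℝ) = 0 := by
      apply le_antisymm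
      · linarith
      · linarith
    ext
    · simp only; exact_mod_cast h10
    · simp only; omega

/-- the lattice points of the standard triangle -/
noncomputable def TF (d : ℕ) : Finset (ℤ × ℤ) :=
  (range (d + 1)).biUnion fun b => (range (d + 1 - b)).image fun a : ℕ => ((a : ℤ), (b : ℤ))

theorem coe_TF (d : ℕ) : (↑(TF d) : Set (ℤ × ℤ)) = TZ d := by
  ext ⟨a, b⟩
  rw [mem_coe]
  simp only [TF, TZ, mem_biUnion, mem_image, mem_range, Set.mem_ofPred_eq, Prod.mk.injEq]
  constructor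
  · rintro ⟨b', hb', a', ha', rfl, rfl⟩
    refine ⟨by omega, by omega, by omega⟩
  · rintro ⟨h1, h2, h3⟩
    exact ⟨b.toNat, by omega, a.toNat, by omega, by omega, by omega⟩

theorem card_TF (d : ℕ) : (TF d).card = (d + 2).choose 2 := by
  classical
  unfold TF
  rw [card_biUnion]
  · have h1 : ∀ b ∈ range (d + 1), ((range (d + 1 - b)).image fun a : ℕ => ((a : ℤ), (b : ℤ))).card =
        d + 1 - b := by
      intro b _
      rw [card_image_of_injective, card_range]
      intro a a' h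
      have := (Prod.mk.inj h).1
      omega
    rw [sum_congr rfl h1]
    have h2 : ∀ b ∈ range (d + 1), d + 1 - b = (d + 1 - 1 - b) + 1 := fun b hb => by
      rw [mem_range] at hb; omega
    rw [sum_congr rfl h2, Finset.sum_range_reflect (fun b => b + 1) (d + 1)]
    clear h1 h2
    induction d with
    | zero => simp
    | succ d ih =>
      have h : (d + 1 + 2).choose 2 = (d + 2) + (d + 2).choose 2 := by
        have h1 := Nat.choose_succ_succ' (d + 2) 1
        rw [Nat.choose_one_right] at h1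
        exact h1
      rw [sum_range_succ, ih, h]
      omega
  · intro b _ b' _ hne
    rw [Function.onFun, disjoint_left]
    intro m hm hm'
    rw [mem_image] at hm hm'
    obtain ⟨a, _, rfl⟩ := hm
    obtain ⟨a', _, h⟩ := hm'
    apply hne
    have := (Prod.mk.inj h).2
    omega

/-- the key lemma for independence -/
theorem Sur_key {ι : Type} [Fintype ι] {w : ι → ℕ} {d : ℕ} {τ : ℝ} (h0 : 0 < τ) (h1 : τ < 1)
    (hirr : Irrational τ)
    (h : Sur w (Reg (-((d : ℝ) * (1 + τ))) (d * (2 - τ)) (3 * (1 + τ)) (3 * (2 - τ)))) :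
    Sur w (TZ d) := by
  classical
  obtain ⟨S', hS'⟩ : ∃ S' : Finset (ℤ × ℤ), (↑S' : Set (ℤ × ℤ)) =
      Reg (-((d : ℝ) * (1 + τ))) (d * (2 - τ)) (3 * (1 + τ)) (3 * (2 - τ)) := by
    have hfin := (TD d τ).finite_toSet.subset (Reg_subset_TD (d := d) hirr)
    exact ⟨hfin.toFinset, hfin.coe_toFinset⟩
  rw [← coe_TF]
  refine Sur.transfer (S' := S') ?_ ?_ (by rw [hS']; exact h)
  · rw [card_TF]
    refine (card_le_card ?_).trans (card_TD d τ)
    have h2 := Reg_subset_TD (d := d) hirr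
    rw [← hS'] at h2
    exact_mod_cast h2
  · intro κ v hv
    rw [hS'] at hv
    rw [coe_TF]
    exact Pool.Agent.TH603.EL.Emp_key h0 h1 hv

end Pool.Agent.TH387.SH
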