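import Pool.Agent.TH641.NW.End
import Pool.Agent.TH885.NW.Final

/-! Uniform multiplicities: the expected dimension at every number `n ≥ 10` of general points, in
all degrees outside one window whose length tends to zero. -/

namespace Pool.Agent.TH387.SH

open Finset Filter Pool.Agent.TH176.Nag Pool.Agent.TH603.Sur Pool.Agent.H932R3

variable {L : Type} [Field L] [CharZero L]

/-- the expected dimension for every `m ≥ 1` and every `d` with `x < f m d` -/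
def Good (L : Type) [Field L] [CharZero L] (n : ℕ) (f : ℕ → ℕ → ℝ) (x : ℝ) : Prop :=
  ∀ m : ℕ, 1 ≤ m → ∃ F : MvPolynomial (Fin n × Fin 2) ℚ, F ≠ 0 ∧
    ∀ P : Fin n → Fin 2 → L,
      MvPolynomial.aeval (fun ij : Fin n × Fin 2 => P ij.1 ij.2) F ≠ 0 →
      ∀ d : ℕ, x < f m d → ExpDim L (fun _ => m) P d

theorem Good.mono {n : ℕ} {f : ℕ → ℕ → ℝ} {x y : ℝ} (h : Good L n f x) (hxy : x ≤ y) :
    Good L n f y := by
  intro m hm
  obtain ⟨F, hF, hF'⟩ := h m hm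
  exact ⟨F, hF, fun P hP d hd => hF' P hP d (lt_of_le_of_lt hxy hd)⟩

theorem Good.min {n : ℕ} {f : ℕ → ℕ → ℝ} {x y : ℝ} (h : Good L n f x) (h' : Good L n f y) :
    Good L n f (min x y) := by
  rcases min_choice x y with e | e
  · rw [e]; exact h
  · rw [e]; exact h'

/-- the distance of the degree from the critical value, from below -/
noncomputable def lo (n : ℕ) (m d : ℕ) : ℝ := √(n : ℝ) * (2 * m + 1) - (2 * d + 3)

/-- the distance of the degree from the critical value, from above -/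
noncomputable def up (n : ℕ) (m d : ℕ) : ℝ := (2 * d + 3) - √(n : ℝ) * (2 * m + 1)

theorem good_lo {n : ℕ} (hn : 10 ≤ n) :
    Good L n (lo n) (min (√(n : ℝ) - 3) (2 / 3 + 17 / (4 * √(n : ℝ)))) := by
  intro m hm
  obtain ⟨F, hF, hF'⟩ := Pool.Agent.TH641.NW.expDim_uni_win (L := L) hn hm
  exact ⟨F, hF, fun P hP d hd => hF' P hP d (Or.inl hd)⟩

theorem good_up {n : ℕ} (hn : 10 ≤ n) :
    Good L n (up n) (min (√(n : ℝ) - 3) (2 / 3 + 9 / (4 * √(n : ℝ)))) := by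
  intro m hm
  obtain ⟨F, hF, hF'⟩ := Pool.Agent.TH641.NW.expDim_uni_win (L := L) hn hm
  exact ⟨F, hF, fun P hP d hd => hF' P hP d (Or.inr hd)⟩

theorem eps_lo {ε : ℝ} (hε : 0 < ε) : ∃ N0 : ℕ, ∀ n : ℕ, N0 ≤ n → Good L n (lo n) ε := by
  obtain ⟨N0, h⟩ := Pool.Agent.TH885.NW.all_uni hε
  refine ⟨N0, fun n hn m hm => ?_⟩
  obtain ⟨F, hF, hF'⟩ := h n hn m hm (L := L)
  refine ⟨F, hF, fun P hP d hd => hF' P hP d ?_⟩
  rw [abs_sub_comm]
  exact (le_of_lt hd).trans (le_abs_self _)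

theorem eps_up {ε : ℝ} (hε : 0 < ε) : ∃ N0 : ℕ, ∀ n : ℕ, N0 ≤ n → Good L n (up n) ε := by
  obtain ⟨N0, h⟩ := Pool.Agent.TH885.NW.all_uni hε
  refine ⟨N0, fun n hn m hm => ?_⟩
  obtain ⟨F, hF, hF'⟩ := h n hn m hm (L := L)
  exact ⟨F, hF, fun P hP d hd => hF' P hP d ((le_of_lt hd).trans (le_abs_self _))⟩

/-- one sequence of good half lengths which tends to zero and satisfies an explicit bound -/
theorem exists_seq {f : ℕ → ℕ → ℕ → ℝ} {g : ℕ → ℝ} {c : ℝ} (hc : 0 < c)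
    (hg0 : ∀ n, 10 ≤ n → 0 ≤ g n) (hg : ∀ᶠ n : ℕ in atTop, c ≤ g n)
    (hgood : ∀ n, 10 ≤ n → Good L n (f n) (g n))
    (heps : ∀ ε : ℝ, 0 < ε → ∃ N0 : ℕ, ∀ n : ℕ, N0 ≤ n → Good L n (f n) ε) :
    ∃ ω : ℕ → ℝ, Tendsto ω atTop (nhds 0) ∧
      ∀ n, 10 ≤ n → ω n ≤ g n ∧ Good L n (f n) (ω n) := by
  classical
  -- the infimum of the good half lengths
  let S : ℕ → Set ℝ := fun n => {x | 0 ≤ x ∧ Good L n (f n) x}
  let a : ℕ → ℝ := fun n => sInf (S n) + 1 / (n + 1)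
  have hbdd : ∀ n, BddBelow (S n) := fun n => ⟨0, fun x hx => hx.1⟩
  have hinf0 : ∀ n, 0 ≤ sInf (S n) := fun n => Real.sInf_nonneg fun x hx => hx.1
  have ha : ∀ n, 10 ≤ n → Good L n (f n) (a n) := by
    intro n hn
    have hne : (S n).Nonempty := ⟨g n, hg0 n hn, hgood n hn⟩
    obtain ⟨x, hx, hxa⟩ := exists_lt_of_csInf_lt hne
      (show sInf (S n) < a n by
        have : (0 : ℝ) < 1 / (n + 1) := by positivity
        simp only [a]; linarith)
    exact hx.2.mono hxa.le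
  have hlim : Tendsto a atTop (nhds 0) := by
    have h1 : Tendsto (fun n => sInf (S n)) atTop (nhds 0) := by
      rw [Metric.tendsto_atTop]
      intro ε hε
      obtain ⟨N0, h⟩ := heps (ε / 2) (half_pos hε)
      refine ⟨N0, fun n hn => ?_⟩
      have h2 : sInf (S n) ≤ ε / 2 := csInf_le (hbdd n) ⟨by linarith, h n hn⟩
      rw [Real.dist_eq, sub_zero, abs_of_nonneg (hinf0 n)]
      linarith
    have h2 : Tendsto (fun n : ℕ => 1 / ((n : ℝ) + 1)) atTop (nhds 0) :=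
      tendsto_one_div_add_atTop_nhds_zero_nat
    have h3 := h1.add h2
    rw [add_zero] at h3
    exact h3
  refine ⟨fun n => min (a n) (g n), ?_, ?_⟩
  · refine hlim.congr' ?_
    have h1 : ∀ᶠ n : ℕ in atTop, a n < c := hlim.eventually (gt_mem_nhds hc)
    filter_upwards [h1, hg] with n hn hn2
    exact (min_eq_left (hn.le.trans hn2)).symm
  · intro n hn
    exact ⟨min_le_right _ _, (ha n hn).min (hgood n hn)⟩

theorem win_nonneg {a : ℝ} (ha : 0 ≤ a) {n : ℕ} (hn : 10 ≤ n) :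
    0 ≤ min (√(n : ℝ) - 3) (2 / 3 + a / (4 * √(n : ℝ))) := by
  have hnR : (10 : ℝ) ≤ n := by exact_mod_cast hn
  refine le_min ?_ (by positivity)
  have : 3 ≤ √(n : ℝ) := Real.le_sqrt_of_sq_le (by linarith)
  linarith

theorem win_ev {a : ℝ} (ha : 0 ≤ a) :
    ∀ᶠ n : ℕ in atTop, (1 / 2 : ℝ) ≤ min (√(n : ℝ) - 3) (2 / 3 + a / (4 * √(n : ℝ))) := by
  filter_upwards [eventually_ge_atTop 16] with n hn
  have hnR : (16 : ℝ) ≤ n := by exact_mod_cast hn
  have h4 : (4 : ℝ) ≤ √(n : ℝ) := Real.le_sqrt_of_sq_le (by linarith)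
  have h6 : (0 : ℝ) ≤ a / (4 * √(n : ℝ)) := by positivity
  refine le_min ?_ ?_ <;> linarith

/-- **Uniform SHGH at every number `n ≥ 10` of general points, outside one window.** -/
theorem exists_window (L : Type) [Field L] [CharZero L] : ∃ α β : ℕ → ℝ,
    Tendsto α atTop (nhds 0) ∧ Tendsto β atTop (nhds 0) ∧
    (∀ n, 10 ≤ n → α n ≤ min (√(n : ℝ) - 3) (2 / 3 + 17 / (4 * √(n : ℝ))) ∧
      β n ≤ min (√(n : ℝ) - 3) (2 / 3 + 9 / (4 * √(n : ℝ)))) ∧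
    ∀ n, 10 ≤ n → ∀ m : ℕ, 1 ≤ m → ∃ F : MvPolynomial (Fin n × Fin 2) ℚ, F ≠ 0 ∧
      ∀ P : Fin n → Fin 2 → L,
        MvPolynomial.aeval (fun ij : Fin n × Fin 2 => P ij.1 ij.2) F ≠ 0 →
        ∀ d : ℕ, (α n < √(n : ℝ) * (2 * m + 1) - (2 * d + 3) ∨
          β n < (2 * d + 3) - √(n : ℝ) * (2 * m + 1)) → ExpDim L (fun _ => m) P d := by
  obtain ⟨α, hα, hα'⟩ := exists_seq (L := L) (f := lo) (c := 1 / 2) (by norm_num)
    (fun n hn => win_nonneg (a := 17) (by norm_num) hn) (win_ev (by norm_num))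
    (fun n hn => good_lo hn) (fun ε hε => eps_lo hε)
  obtain ⟨β, hβ, hβ'⟩ := exists_seq (L := L) (f := up) (c := 1 / 2) (by norm_num)
    (fun n hn => win_nonneg (a := 9) (by norm_num) hn) (win_ev (by norm_num))
    (fun n hn => good_up hn) (fun ε hε => eps_up hε)
  refine ⟨α, β, hα, hβ, fun n hn => ⟨(hα' n hn).1, (hβ' n hn).1⟩, fun n hn m hm => ?_⟩
  obtain ⟨F₁, h1, h1'⟩ := (hα' n hn).2 m hm
  obtain ⟨F₂, h2, h2'⟩ := (hβ' n hn).2 m hm
  refine ⟨F₁ * F₂, mul_ne_zero h1 h2, fun P hP d hd => ?_⟩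
  rw [map_mul] at hP
  rcases hd with hd | hd
  · exact h1' P (left_ne_zero_of_mul hP) d hd
  · exact h2' P (right_ne_zero_of_mul hP) d hd

end Pool.Agent.TH387.SH
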